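import Pool.Agent.H21.HS.Targets

set_option autoImplicit false

open Finset
open Pool.Agent.H21.HS

namespace Pool.Agent.H54.HS

theorem zmod_cases : ∀ a : ZMod 2, a = 0 ∨ a = 1 := by decide

theorem sg_zero : sg 0 = 1 := by simp [sg]

theorem sg_one : sg 1 = -1 := by
  have h : (1 : ZMod 2) ≠ 0 := by decide
  simp [sg, h]

theorem sg_add (a b : ZMod 2) : sg (a + b) = sg a * sg b := by
  have h11 : (1 : ZMod 2) + 1 = 0 := by decide
  rcases zmod_cases a with rfl | rfl <;> rcases zmod_cases b with rfl | rfl
  · simp [sg_zero]
  · simp [sg_zero, sg_one]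
  · simp [sg_zero, sg_one]
  · rw [h11, sg_zero, sg_one]; norm_num

theorem sg_cases (a : ZMod 2) : sg a = 1 ∨ sg a = -1 := by
  unfold sg; split_ifs <;> simp

theorem ch_add {V : Type} (T : Finset V) (S S' : V → ZMod 2) :
    ch T (S + S') = ch T S * ch T S' := by
  unfold ch
  rw [← Finset.prod_mul_distrib]
  exact Finset.prod_congr rfl fun v _ => sg_add _ _

theorem ch_cases {V : Type} [DecidableEq V] (T : Finset V) (S : V → ZMod 2) :
    ch T S = 1 ∨ ch T S = -1 := by
  induction T using Finset.induction_on with
  | empty => left; simp [ch]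
  | insert a s ha ih =>
    have : ch (insert a s) S = sg (S a) * ch s S := by
      unfold ch; rw [Finset.prod_insert ha]
    rw [this]
    rcases ih with h | h <;> rcases sg_cases (S a) with h' | h' <;> rw [h, h'] <;> simp

theorem dist : T_dist := by
  intro V _ _ lam hlam
  have key : ∀ A : Finset (V → ZMod 2), ∃ mu : (V → ZMod 2) → ℝ, (∀ S, 0 ≤ mu S) ∧
      ∀ T : Finset V, ∑ S, mu S * ch T S = Real.exp (-∑ S ∈ A, lam S * (1 - ch T S)) := by
    intro A
    induction A using Finset.induction_on with
    | empty =>
      refine ⟨Pi.single 0 1, fun S => ?_, fun T => ?_⟩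
      · by_cases h : S = 0
        · subst h; simp
        · rw [Pi.single_eq_of_ne h]
      · rw [Finset.sum_eq_single (0 : V → ZMod 2)]
        · simp [ch, sg]
        · intro S _ h; rw [Pi.single_eq_of_ne h]; simp
        · intro h; exact absurd (Finset.mem_univ _) h
    | insert S0 A hS0 ih =>
      obtain ⟨mu, hmu, hmuT⟩ := ih
      set q : ℝ := (1 - Real.exp (-(2 * lam S0))) / 2 with hq
      have he1 : Real.exp (-(2 * lam S0)) ≤ 1 := by
        rw [Real.exp_le_one_iff]; linarith [hlam S0]
      have he0 : 0 < Real.exp (-(2 * lam S0)) := Real.exp_pos _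
      have hq0 : 0 ≤ q := by rw [hq]; linarith
      have hq1 : q ≤ 1 := by rw [hq]; linarith
      refine ⟨fun S => (1 - q) * mu S + q * mu (S - S0), fun S => ?_, fun T => ?_⟩
      · have := hmu S
        have := hmu (S - S0)
        have : 0 ≤ 1 - q := by linarith
        positivity
      · have h1 : ∑ S, ((1 - q) * mu S + q * mu (S - S0)) * ch T S =
            (1 - q) * ∑ S, mu S * ch T S + q * ∑ S, mu (S - S0) * ch T S := by
          rw [Finset.mul_sum, Finset.mul_sum, ← Finset.sum_add_distrib]
          refine Finset.sum_congr rfl fun S _ => ?_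
          ring
        have h2 : ∑ S, mu (S - S0) * ch T S = (∑ S, mu S * ch T S) * ch T S0 := by
          rw [← Equiv.sum_comp (Equiv.addRight S0), Finset.sum_mul]
          refine Finset.sum_congr rfl fun S _ => ?_
          simp only [Equiv.coe_addRight, add_sub_cancel_right]
          rw [ch_add]; ring
        rw [h1, h2, hmuT T, Finset.sum_insert hS0, neg_add, Real.exp_add]
        have h3 : Real.exp (-(lam S0 * (1 - ch T S0))) = 1 - q + q * ch T S0 := by
          rcases ch_cases T S0 with h | h
          · rw [h]; simp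
          · rw [h, hq]
            have : -(lam S0 * (1 - (-1 : ℝ))) = -(2 * lam S0) := by ring
            rw [this]; ring
        rw [h3]; ring
  exact key Finset.univ

end Pool.Agent.H54.HS
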