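import Pool.Agent.H21.HS.Targets

set_option autoImplicit false

open Finset
open Pool.Agent.H21.HS

namespace Pool.Agent.H54.HS

theorem for_ : T_for := by
  classical
  intro V _ _ γ P a b lev
  set tv : γ → (V → ZMod 2) := fun g => Pi.single (a g) 1 + Pi.single (b g) 1 with htv
  have key : ∃ T ⊆ P, LinearIndepOn (ZMod 2) tv (T : Set γ) ∧
      ∀ g ∈ P, tv g ∈ Submodule.span (ZMod 2) (tv '' {g' | g' ∈ T ∧ lev g ≤ lev g'}) := by
    induction P using Finset.induction_on_min_value (f := lev) with
    | empty => exact ⟨∅, by simp, by simp, by simp⟩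
    | insert a0 s ha0 hmin ih =>
      obtain ⟨T, hT, hli, hsp⟩ := ih
      by_cases hc : tv a0 ∈ Submodule.span (ZMod 2) (tv '' (T : Set γ))
      · refine ⟨T, hT.trans (Finset.subset_insert _ _), hli, fun g hg => ?_⟩
        rcases Finset.mem_insert.1 hg with rfl | hg
        · have : {g' | g' ∈ T ∧ lev g ≤ lev g'} = (T : Set γ) := by
            ext g'
            simp only [Set.mem_setOf_eq, Finset.mem_coe]
            exact ⟨fun h => h.1, fun h => ⟨h, hmin g' (hT h)⟩⟩
          rw [this]; exact hc
        · exact hsp g hg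
      · refine ⟨insert a0 T, Finset.insert_subset_insert _ hT, ?_, fun g hg => ?_⟩
        · rw [Finset.coe_insert]
          exact (linearIndepOn_insert (by
            simp only [Finset.mem_coe]; exact fun h => ha0 (hT h))).2 ⟨hli, hc⟩
        · rcases Finset.mem_insert.1 hg with rfl | hg
          · exact Submodule.subset_span ⟨g, ⟨Finset.mem_insert_self _ _, le_refl _⟩, rfl⟩
          · refine Submodule.span_mono ?_ (hsp g hg)
            apply Set.image_mono
            rintro g' ⟨h1, h2⟩
            exact ⟨Finset.mem_insert_of_mem h1, h2⟩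
  obtain ⟨T, hT, hli, hsp⟩ := key
  refine ⟨T, hT, ?_, ?_⟩
  · have h1 := LinearIndependent.fintype_card_le_finrank hli
    simpa using h1
  · intro l S S' hTl g hg hlg
    set D : V → ZMod 2 := fun v => S v + S' v with hD
    set φ : (V → ZMod 2) →ₗ[ZMod 2] ZMod 2 :=
      { toFun := fun f => ∑ v, f v * D v
        map_add' := fun f f' => by
          rw [← Finset.sum_add_distrib]
          exact Finset.sum_congr rfl fun v _ => by simp only [Pi.add_apply]; ring
        map_smul' := fun c f => by
          simp only [Pi.smul_apply, smul_eq_mul, RingHom.id_apply]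
          rw [Finset.mul_sum]
          exact Finset.sum_congr rfl fun v _ => by ring } with hφ
    have hφtv : ∀ g, φ (tv g) = D (a g) + D (b g) := by
      intro g
      have h1 : φ (tv g) = φ (Pi.single (a g) 1) + φ (Pi.single (b g) 1) := map_add _ _ _
      have h2 : ∀ x : V, φ (Pi.single x 1) = D x := by
        intro x
        show ∑ v, (Pi.single x (1 : ZMod 2) : V → ZMod 2) v * D v = D x
        rw [Finset.sum_eq_single x]
        · simp
        · intro y _ hy; simp [Pi.single_eq_of_ne hy]
        · intro h; exact absurd (Finset.mem_univ _) h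
      rw [h1, h2, h2]
    have hchar : ∀ x y z w : ZMod 2, (x + y) + (z + w) = 0 ↔ x + z = y + w := by decide
    have hker : ∀ f ∈ Submodule.span (ZMod 2) (tv '' {g' | g' ∈ T ∧ lev g ≤ lev g'}),
        φ f = 0 := by
      intro f hf
      have hle : Submodule.span (ZMod 2) (tv '' {g' | g' ∈ T ∧ lev g ≤ lev g'}) ≤
          LinearMap.ker φ := by
        rw [Submodule.span_le]
        rintro _ ⟨g', ⟨h1, h2⟩, rfl⟩
        simp only [SetLike.mem_coe, LinearMap.mem_ker]
        rw [hφtv, hD]
        exact (hchar _ _ _ _).2 (hTl g' h1 (hlg.trans h2))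
      exact LinearMap.mem_ker.1 (hle hf)
    have h0 := hker _ (hsp g hg)
    rw [hφtv] at h0
    exact (hchar _ _ _ _).1 h0

end Pool.Agent.H54.HS
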