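import Pool.Agent.H21.HS.Targets

set_option autoImplicit false

open Finset
open Pool.Agent.H21.HS

namespace Pool.Agent.H54.HS

theorem dl_nonneg {V : Type} (e : Finset V) (S : V → ZMod 2) : 0 ≤ dl e S := by
  unfold dl; split_ifs <;> norm_num

theorem dl_empty {V : Type} [IsEmpty V] (e : Finset V) (S : V → ZMod 2) : dl e S = 0 := by
  unfold dl
  rw [if_neg]
  rintro ⟨u, _⟩
  exact IsEmpty.elim inferInstance u

theorem one_sub_ge_exp {x : ℝ} (h0 : 0 ≤ x) (h1 : x ≤ 1 / 2) : Real.exp (-(2 * x)) ≤ 1 - x := by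
  rw [Real.exp_neg]
  have h2 := Real.add_one_le_exp (2 * x)
  rw [inv_le_iff_one_le_mul₀ (Real.exp_pos _)]
  nlinarith

theorem iter (hstep : T_step) : T_iter := by
  obtain ⟨C0, hC0, hst⟩ := hstep
  set K : ℝ := 800 * √C0 with hK
  have hsC : 0 < √C0 := Real.sqrt_pos.2 hC0
  have hKpos : 0 < K := by positivity
  have hK2 : K ^ 2 = 640000 * C0 := by
    rw [hK, mul_pow, Real.sq_sqrt hC0.le]; norm_num
  refine ⟨16 * K ^ 2, by positivity, ?_⟩
  intro V _ _ w0 hw0 ε hε hε1
  rcases isEmpty_or_nonempty V with hV | hV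
  · refine ⟨fun _ => 0, fun _ => le_refl _, ?_, fun S => ?_⟩
    · simp
    · simp [dl_empty]
  set n : ℝ := (Fintype.card V : ℝ) with hn
  have hn0 : 0 < n := by rw [hn]; exact_mod_cast Fintype.card_pos
  set M : ℝ := 16 * K ^ 2 * n / ε ^ 2 with hM
  have hM0 : 0 < M := by positivity
  have main : ∀ m : ℕ, ∀ w : Finset V → ℝ, (∀ e, 0 ≤ w e) →
      (univ.filter (fun e => w e ≠ 0)).card = m →
      ∃ w' : Finset V → ℝ, (∀ e, 0 ≤ w' e) ∧
        ((univ.filter (fun e => w' e ≠ 0)).card : ℝ) ≤ M ∧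
        ∃ d : ℝ, 0 ≤ d ∧ ((m : ℝ) ≤ M → d = 0) ∧
          (M < (m : ℝ) → d ≤ K * (2 * √(n / M) - √(n / m))) ∧
          ∀ S : V → ZMod 2,
            Real.exp (-d) * ∑ e, w e * dl e S ≤ ∑ e, w' e * dl e S ∧
            ∑ e, w' e * dl e S ≤ Real.exp d * ∑ e, w e * dl e S := by
    intro m
    induction m using Nat.strong_induction_on with
    | _ m ih =>
    intro w hw hm
    by_cases hmM : (m : ℝ) ≤ M
    · refine ⟨w, hw, by rw [hm]; exact hmM, 0, le_refl _, fun _ => rfl,
        fun h => absurd hmM (not_le.2 h), fun S => ?_⟩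
      simp
    have hmM' : M < (m : ℝ) := not_le.1 hmM
    have hm0 : (0 : ℝ) < m := hM0.trans hmM'
    set εm : ℝ := √(C0 * n / m) with hεm
    have hεm0 : 0 < εm := Real.sqrt_pos.2 (by positivity)
    have hεm2 : εm ^ 2 = C0 * n / m := Real.sq_sqrt (by positivity)
    have hεmhalf : εm ≤ 1 / 2 := by
      apply Real.sqrt_le_iff.2
      refine ⟨by norm_num, ?_⟩
      rw [div_le_iff₀ hm0]
      have h1 : C0 * n ≤ (1 / 4) * M := by
        rw [hM, hK2]
        have h2 : C0 * n * ε ^ 2 ≤ C0 * n * 1 := by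
          apply mul_le_mul_of_nonneg_left _ (by positivity)
          nlinarith
        rw [← mul_div_assoc, le_div_iff₀ (by positivity)]
        nlinarith [mul_pos hC0 hn0]
      nlinarith
    have hεeq : εm = √C0 * √(n / m) := by
      rw [hεm, mul_div_assoc, Real.sqrt_mul hC0.le]
    obtain ⟨w1, hw1, hc1, hf1⟩ := hst V w εm hw hεm0 (hεmhalf.trans (by norm_num)) (by
      rw [hm, hεm2, ← hn]
      apply le_of_eq
      field_simp)
    rw [hm] at hc1
    set m1 : ℕ := (univ.filter (fun e => w1 e ≠ 0)).card with hm1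
    have hlt : m1 < m := by
      have : (m1 : ℝ) < m := by nlinarith
      exact_mod_cast this
    obtain ⟨w', hw', hc', d1, hd10, hd1a, hd1b, hf'⟩ := ih m1 hlt w1 hw1 rfl
    refine ⟨w', hw', hc', 2 * εm + d1, by positivity, fun h => absurd h hmM, fun _ => ?_, ?_⟩
    · by_cases h1 : (m1 : ℝ) ≤ M
      · rw [hd1a h1, add_zero]
        have h2 : √(n / m) ≤ √(n / M) := by
          apply Real.sqrt_le_sqrt
          exact div_le_div_of_nonneg_left hn0.le hM0 hmM'.le
        have h3 : 2 * εm ≤ K * √(n / m) := by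
          rw [hεeq, hK]
          have : 0 ≤ √C0 * √(n / m) := by positivity
          nlinarith
        have h4 : K * √(n / m) ≤ K * (2 * √(n / M) - √(n / m)) := by
          apply mul_le_mul_of_nonneg_left _ hKpos.le
          linarith
        linarith
      · have h1' : M < (m1 : ℝ) := not_le.1 h1
        have hm10 : (0 : ℝ) < m1 := hM0.trans h1'
        have h2 := hd1b h1'
        have h3 : (401 / 400) * √(n / m) ≤ √(n / m1) := by
          have e1 : (401 / 400 : ℝ) * √(n / m) = √((401 / 400) ^ 2 * (n / m)) := by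
            rw [Real.sqrt_mul (by positivity), Real.sqrt_sq (by norm_num)]
          rw [e1]
          apply Real.sqrt_le_sqrt
          rw [← mul_div_assoc, div_le_div_iff₀ hm0 hm10]
          have : (401 / 400 : ℝ) ^ 2 * (m1 : ℝ) ≤ m := by nlinarith
          nlinarith
        have h4 : 2 * εm = K * (√(n / m) / 400) := by
          rw [hεeq, hK]; ring
        rw [h4]
        have h5 : K * (√(n / m) / 400) ≤ K * (√(n / m1) - √(n / m)) := by
          apply mul_le_mul_of_nonneg_left _ hKpos.le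
          linarith
        nlinarith
    · intro S
      obtain ⟨a1, a2⟩ := hf1 S
      obtain ⟨b1, b2⟩ := hf' S
      have hF0 : 0 ≤ ∑ e, w e * dl e S :=
        Finset.sum_nonneg fun e _ => mul_nonneg (hw e) (dl_nonneg e S)
      constructor
      · have h1 : Real.exp (-(2 * εm)) * ∑ e, w e * dl e S ≤ ∑ e, w1 e * dl e S :=
          (mul_le_mul_of_nonneg_right (one_sub_ge_exp hεm0.le hεmhalf) hF0).trans a1
        calc Real.exp (-(2 * εm + d1)) * ∑ e, w e * dl e S
            = Real.exp (-d1) * (Real.exp (-(2 * εm)) * ∑ e, w e * dl e S) := by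
              rw [neg_add, Real.exp_add]; ring
          _ ≤ Real.exp (-d1) * ∑ e, w1 e * dl e S :=
              mul_le_mul_of_nonneg_left h1 (Real.exp_nonneg _)
          _ ≤ _ := b1
      · have h1 : ∑ e, w1 e * dl e S ≤ Real.exp (2 * εm) * ∑ e, w e * dl e S := by
          refine a2.trans (mul_le_mul_of_nonneg_right ?_ hF0)
          have := Real.add_one_le_exp (2 * εm)
          linarith
        calc ∑ e, w' e * dl e S ≤ Real.exp d1 * ∑ e, w1 e * dl e S := b2
          _ ≤ Real.exp d1 * (Real.exp (2 * εm) * ∑ e, w e * dl e S) :=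
              mul_le_mul_of_nonneg_left h1 (Real.exp_nonneg _)
          _ = _ := by rw [Real.exp_add]; ring
  obtain ⟨w', hw', hc', d, hd0, hda, hdb, hf'⟩ := main _ w0 hw0 rfl
  have hd : d ≤ ε / 2 := by
    by_cases h : (((univ.filter (fun e => w0 e ≠ 0)).card : ℕ) : ℝ) ≤ M
    · rw [hda h]; linarith
    · refine (hdb (not_le.1 h)).trans ?_
      have h1 : √(n / M) = ε / (4 * K) := by
        have : n / M = (ε / (4 * K)) ^ 2 := by
          rw [hM]; field_simp; ring
        rw [this, Real.sqrt_sq (by positivity)]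
      rw [h1]
      have h2 : 0 ≤ √(n / (((univ.filter (fun e => w0 e ≠ 0)).card : ℕ) : ℝ)) := Real.sqrt_nonneg _
      have h3 : K * (2 * (ε / (4 * K))) = ε / 2 := by field_simp; ring
      have h4 : 0 ≤ K * √(n / (((univ.filter (fun e => w0 e ≠ 0)).card : ℕ) : ℝ)) := by positivity
      linarith [mul_sub K (2 * (ε / (4 * K)))
        (√(n / (((univ.filter (fun e => w0 e ≠ 0)).card : ℕ) : ℝ)))]
  refine ⟨w', hw', hc', fun S => ?_⟩
  obtain ⟨b1, b2⟩ := hf' S
  have hF0 : 0 ≤ ∑ e, w0 e * dl e S :=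
    Finset.sum_nonneg fun e _ => mul_nonneg (hw0 e) (dl_nonneg e S)
  constructor
  · refine (mul_le_mul_of_nonneg_right ?_ hF0).trans b1
    have := Real.add_one_le_exp (-d)
    linarith
  · refine b2.trans (mul_le_mul_of_nonneg_right ?_ hF0)
    have h1 : Real.exp d ≤ 1 / (1 - ε / 2) := by
      have h2 := Real.add_one_le_exp (-d)
      rw [Real.exp_neg] at h2
      rw [le_div_iff₀ (by linarith)]
      have h3 : 1 - ε / 2 ≤ (Real.exp d)⁻¹ := by linarith
      calc Real.exp d * (1 - ε / 2) ≤ Real.exp d * (Real.exp d)⁻¹ :=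
            mul_le_mul_of_nonneg_left h3 (Real.exp_nonneg _)
        _ = 1 := mul_inv_cancel₀ (Real.exp_ne_zero _)
    refine h1.trans ?_
    rw [div_le_iff₀ (by linarith)]
    nlinarith

end Pool.Agent.H54.HS
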