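import Pool.Agent.H21.HS.Targets

set_option autoImplicit false

open Finset
open Pool.Agent.H21.HS

namespace Pool.Agent.H54.HS

section
variable {I W : Type} [Fintype I] [DecidableEq I] [Fintype W]

theorem sum_prod_eq (F : I → W → ℝ) : ∑ om : I → W, ∏ k, F k (om k) = ∏ k, ∑ w, F k w := by
  rw [Finset.prod_univ_sum, Fintype.piFinset_univ]

theorem E_one (mu : I → W → ℝ) (h1 : ∀ i, ∑ w, mu i w = 1) (i : I) (φ : W → ℝ) :
    ∑ om : I → W, (∏ k, mu k (om k)) * φ (om i) = ∑ w, mu i w * φ w := by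
  have e : ∀ om : I → W, (∏ k, mu k (om k)) * φ (om i) =
      ∏ k, (mu k (om k) * (if k = i then φ (om k) else 1)) := by
    intro om
    rw [Finset.prod_mul_distrib, Finset.prod_ite_eq' Finset.univ i, if_pos (Finset.mem_univ _)]
  simp_rw [e]
  rw [sum_prod_eq (fun k w => mu k w * (if k = i then φ w else 1)),
    Finset.prod_eq_single i]
  · simp
  · intro k _ hk
    simp [hk, h1]
  · intro h; exact absurd (Finset.mem_univ _) h

theorem E_two (mu : I → W → ℝ) (i j : I) (hij : i ≠ j) (φ : W → ℝ)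
    (h0 : ∑ w, mu i w * φ w = 0) :
    ∑ om : I → W, (∏ k, mu k (om k)) * (φ (om i) * φ (om j)) = 0 := by
  have e : ∀ om : I → W, (∏ k, mu k (om k)) * (φ (om i) * φ (om j)) =
      ∏ k, (mu k (om k) * ((if k = i then φ (om k) else 1) * (if k = j then φ (om k) else 1))) := by
    intro om
    rw [Finset.prod_mul_distrib, Finset.prod_mul_distrib, Finset.prod_ite_eq' Finset.univ i,
      Finset.prod_ite_eq' Finset.univ j, if_pos (Finset.mem_univ _), if_pos (Finset.mem_univ _)]
  simp_rw [e]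
  rw [sum_prod_eq (fun k w => mu k w * ((if k = i then φ w else 1) * (if k = j then φ w else 1)))]
  apply Finset.prod_eq_zero (Finset.mem_univ i)
  simp [hij, h0]

end

theorem var : T_var := by
  intro I W _ _ _ mu hmu h1 A h m hA hh hm
  have hAc : (0 : ℝ) < A.card := by exact_mod_cast hA.card_pos
  set g : W → ℝ := fun w => h w - m with hg
  have hg0 : ∀ i ∈ A, ∑ w, mu i w * g w = 0 := by
    intro i hi
    have : ∀ w, mu i w * g w = mu i w * h w - m * mu i w := fun w => by rw [hg]; ring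
    simp_rw [this]
    rw [Finset.sum_sub_distrib, ← Finset.mul_sum, hm i hi, h1 i]; ring
  have hg2 : ∀ i ∈ A, ∑ w, mu i w * (g w * g w) ≤ 1 := by
    intro i hi
    have : ∀ w, mu i w * (g w * g w) = mu i w * (h w) ^ 2 - 2 * m * (mu i w * h w) +
        m ^ 2 * mu i w := fun w => by rw [hg]; ring
    simp_rw [this]
    rw [Finset.sum_add_distrib, Finset.sum_sub_distrib, ← Finset.mul_sum, ← Finset.mul_sum,
      hm i hi, h1 i]
    have h3 : ∑ w, mu i w * (h w) ^ 2 ≤ ∑ w, mu i w := by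
      refine Finset.sum_le_sum fun w _ => ?_
      have : (h w) ^ 2 ≤ 1 := by
        have := hh w
        rw [← sq_abs]
        nlinarith [abs_nonneg (h w)]
      nlinarith [hmu i w]
    rw [h1 i] at h3
    nlinarith [sq_nonneg m]
  have e1 : ∀ om : I → W, (∏ i, mu i (om i)) * ((∑ i ∈ A, h (om i)) / (A.card : ℝ) - m) ^ 2 =
      (1 / (A.card : ℝ) ^ 2) * ∑ i ∈ A, ∑ j ∈ A, (∏ k, mu k (om k)) * (g (om i) * g (om j)) := by
    intro om
    have e2 : (∑ i ∈ A, h (om i)) / (A.card : ℝ) - m = (∑ i ∈ A, g (om i)) / (A.card : ℝ) := by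
      rw [hg]
      simp only
      rw [Finset.sum_sub_distrib, Finset.sum_const, nsmul_eq_mul, sub_div,
        mul_div_cancel_left₀ _ hAc.ne']
    have e3 : ∑ i ∈ A, ∑ j ∈ A, (∏ k, mu k (om k)) * (g (om i) * g (om j)) =
        (∏ k, mu k (om k)) * ((∑ i ∈ A, g (om i)) * (∑ j ∈ A, g (om j))) := by
      rw [Finset.sum_mul_sum, Finset.mul_sum]
      refine Finset.sum_congr rfl fun i _ => ?_
      rw [Finset.mul_sum]
    rw [e2, e3]
    field_simp
  simp_rw [e1]
  rw [← Finset.mul_sum, Finset.sum_comm]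
  have e4 : ∀ i ∈ A, ∑ om : I → W, ∑ j ∈ A, (∏ k, mu k (om k)) * (g (om i) * g (om j)) ≤ 1 := by
    intro i hi
    rw [Finset.sum_comm, Finset.sum_eq_single i]
    · rw [E_one mu h1 i (fun w => g w * g w)]
      exact hg2 i hi
    · intro j _ hj
      exact E_two mu i j (Ne.symm hj) g (hg0 i hi)
    · intro h; exact absurd hi h
  calc 1 / (A.card : ℝ) ^ 2 * ∑ i ∈ A, ∑ om : I → W, ∑ j ∈ A,
        (∏ k, mu k (om k)) * (g (om i) * g (om j))
      ≤ 1 / (A.card : ℝ) ^ 2 * ∑ i ∈ A, (1 : ℝ) :=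
        mul_le_mul_of_nonneg_left (Finset.sum_le_sum e4) (by positivity)
    _ = 1 / (A.card : ℝ) := by
      rw [Finset.sum_const, nsmul_eq_mul]; field_simp

end Pool.Agent.H54.HS
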